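import Pool.Agent.Helper10.RC.Basic

/-! Every quasitrace on the fixed point algebra is dominated by quasitraces on `A`. -/

open scoped ENNReal NNReal InnerProductSpace ComplexOrder
open Filter Topology

attribute [-instance] CStarMatrix.instAlgebra CStarMatrix.instModule CStarMatrix.instSMul
  CStarMatrix.instMulAction CStarMatrix.instDistribMulAction

noncomputable section
namespace RC
universe u

section hom
variable {D E : Type u} [CStarAlgebra D] [PartialOrder D] [StarOrderedRing D]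
  [CStarAlgebra E] [PartialOrder E] [StarOrderedRing E]

theorem sb2_hom_nonneg (φ : D →⋆ₙₐ[ℝ] E) {a : D} (ha : 0 ≤ a) : 0 ≤ φ a := by
  obtain ⟨s, hs⟩ := CStarAlgebra.nonneg_iff_eq_mul_star_self.mp ha
  rw [hs, map_mul, map_star]
  exact mul_star_self_nonneg _

theorem sb2_hom_norm (φ : D →⋆ₙₐ[ℝ] E) (x : D) : ‖φ x‖ ≤ ‖x‖ := by
  have h1 : ‖φ 1‖ ≤ 1 := by
    have h2 : ‖φ 1‖ * ‖φ 1‖ = ‖φ 1‖ := by
      rw [← CStarRing.norm_star_mul_self, ← map_star, star_one, ← map_mul, one_mul]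
    by_contra h3
    push Not at h3
    nlinarith
  have h2 : ∀ a : D, 0 ≤ a → ‖φ a‖ ≤ ‖a‖ := by
    intro a ha
    have h3 : a ≤ ‖a‖ • (1 : D) := by
      have := (CStarAlgebra.norm_le_iff_le_algebraMap a (norm_nonneg a) ha).1 le_rfl
      rwa [Algebra.algebraMap_eq_smul_one] at this
    have h4 : φ a ≤ ‖a‖ • φ 1 := by
      have h5 := sb2_hom_nonneg φ (sub_nonneg.2 h3)
      rw [map_sub, map_smul] at h5
      exact sub_nonneg.1 h5
    refine (CStarAlgebra.norm_le_norm_of_nonneg_of_le (sb2_hom_nonneg φ ha) h4).trans ?_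
    rw [norm_smul, norm_norm]
    exact mul_le_of_le_one_right (norm_nonneg _) h1
  have h3 := h2 (star x * x) (star_mul_self_nonneg x)
  rw [map_mul, map_star, CStarRing.norm_star_mul_self, CStarRing.norm_star_mul_self] at h3
  exact (mul_self_le_mul_self_iff (norm_nonneg _) (norm_nonneg _)).2 h3

theorem sb2_hom_cont (φ : D →⋆ₙₐ[ℝ] E) : Continuous φ := by
  refine AddMonoidHomClass.continuous_of_bound φ 1 fun x => ?_
  rw [one_mul]
  exact sb2_hom_norm φ x

theorem sb2_hom_cfc (φ : D →⋆ₙₐ[ℝ] E) (f : ℝ → ℝ) (hf : Continuous f) (h0 : f 0 = 0) {a : D}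
    (ha : 0 ≤ a) : φ (cfc f a) = cfc f (φ a) := by
  rw [← cfcₙ_eq_cfc (a := a) hf.continuousOn h0, ← cfcₙ_eq_cfc (a := φ a) hf.continuousOn h0]
  exact φ.map_cfcₙ f a hf.continuousOn h0 (sb2_hom_cont φ) ha.isSelfAdjoint
    (sb2_hom_nonneg φ ha).isSelfAdjoint

end hom


theorem sb2_proj {B : Type u} [CStarAlgebra B] [PartialOrder B] [StarOrderedRing B]
    (ω : QTrace B) {ι : Type} [Fintype ι] [DecidableEq ι] (p : CStarMatrix ι ι B)
    (hp : p * p = p) (hs : star p = p) : ω.dim p ≤ ω.τ ι p := by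
  have hp0 : 0 ≤ p := by
    have := star_mul_self_nonneg p
    rwa [hs, hp] at this
  refine ciSup_le fun n => ?_
  have h1 : ω.τ ι (cfc (fun t : ℝ => min 1 ((n : ℝ) * t)) p) ≤ ω.τ ι (cfc (fun t : ℝ => t) p) := by
    refine ω.cfc_mono (by fun_prop) (by fun_prop) (fun t ht => ?_) (fun t ht => ?_)
    · have := spectrum_nonneg_of_nonneg hp0 ht
      exact le_min zero_le_one (mul_nonneg (Nat.cast_nonneg n) this)
    · have h2 := IsIdempotentElem.spectrum_subset ℝ (show IsIdempotentElem p from hp) ht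
      rcases h2 with h2 | h2
      · rw [h2]
        simp
      · rw [Set.mem_singleton_iff.mp h2]
        exact min_le_left _ _
  rwa [cfc_id' ℝ p] at h1

theorem sBP (h1 : SB1P.{u}) (h2 : QMonoP.{u}) (h3 : QBasicP.{u}) (h4 : QOneP.{u})
    (hm : MpP.{u}) : SBP.{u} := by
  intro A _ _ _ B _ _ _ G _ _ α j hα hj hA
  obtain ⟨m, Θ, w, hmul, hstar, hadd, hsmul, hw⟩ := h1 A B G α j hα hj hA
  refine ⟨m, fun ω => ?_⟩
  set p : CStarMatrix (Unit × Fin m) (Unit × Fin m) B := Θ Unit Unit 1 with hp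
  have hpp : p * p = p := by
    rw [hp, ← hmul, mul_one]
  have hps : star p = p := by
    rw [← cm_star_eq, hp, ← hstar, cm_conj_one]
  have hp0 : 0 ≤ p := by
    have := star_mul_self_nonneg p
    rwa [hps, hpp] at this
  have hp1 : p ≤ 1 := by
    have h5 := star_mul_self_nonneg (1 - p)
    rw [star_sub, star_one, hps, mul_sub, sub_mul, sub_mul, hpp] at h5
    simp only [one_mul, mul_one, sub_self, sub_zero] at h5
    exact sub_nonneg.1 h5
  set c : ℝ := ω.τ (Unit × Fin m) p with hc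
  have hcm : c ≤ m := by
    have h5 := ω.mono_of_comm hp0 hp1 (by rw [one_mul, mul_one])
    rw [(h4 B ω (Unit × Fin m)).1] at h5
    simpa using h5
  have hmp1 : mp j (1 : CStarMatrix Unit Unit B) = 1 := by
    ext a b
    show j ((1 : CStarMatrix Unit Unit B) a b) = _
    rw [show (1 : CStarMatrix Unit Unit B) a b = 1 from by cases a; cases b; rfl, map_one]
    cases a; cases b; rfl
  have hc1 : 1 ≤ c := by
    have h5 : Cu (1 : CStarMatrix Unit Unit B) p := by
      intro ε hε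
      refine ⟨w Unit, ?_⟩
      have h6 := hw Unit 1
      rw [hmp1] at h6
      rw [hp, h6, sub_self, norm_zero]
      exact hε
    have h6 := h2 B ω Unit (Unit × Fin m) 1 p zero_le_one hp0 h5
    rw [(h4 B ω Unit).2] at h6
    have h7 := sb2_proj ω p hpp hps
    have h8 := h6.trans h7
    simpa using h8
  have hc0 : 0 < c := by linarith
  have hΘ0 : ∀ (ι : Type) [Fintype ι] [DecidableEq ι] (a : CStarMatrix ι ι A), 0 ≤ a →
      0 ≤ Θ ι ι a := by
    intro ι _ _ a ha
    obtain ⟨s, hs⟩ := CStarAlgebra.nonneg_iff_eq_mul_star_self.mp ha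
    rw [hs, hmul, ← cm_star_eq, hstar]
    exact cm_mul_conj_nonneg _
  let σ : QTrace A :=
    { τ := fun ι _ _ x => ω.τ (ι × Fin m) (Θ ι ι x) / c
      nonneg := fun ι _ _ a ha => div_nonneg (ω.nonneg _ _ (hΘ0 ι a ha)) hc0.le
      trace := fun ι κ _ _ _ _ x => by
        show ω.τ (ι × Fin m) (Θ ι ι (x * x.conjTranspose)) / c =
          ω.τ (κ × Fin m) (Θ κ κ (x.conjTranspose * x)) / c
        rw [hmul, hmul, hstar, ω.trace]
      add := fun ι _ _ a b ha hb hab => by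
        show ω.τ (ι × Fin m) (Θ ι ι (a + b)) / c = ω.τ (ι × Fin m) (Θ ι ι a) / c +
          ω.τ (ι × Fin m) (Θ ι ι b) / c
        rw [hadd, ω.add _ _ _ (hΘ0 ι a ha) (hΘ0 ι b hb) (by rw [← hmul, ← hmul, hab]), add_div]
      smul := fun ι _ _ r a hr ha => by
        show ω.τ (ι × Fin m) (Θ ι ι (r • a)) / c = r * (ω.τ (ι × Fin m) (Θ ι ι a) / c)
        rw [hsmul, ω.smul _ _ _ hr (hΘ0 ι a ha), mul_div_assoc]
      one := div_self hc0.ne' }
  have hdim : ∀ (κ : Type) [Fintype κ] [DecidableEq κ] (y : CStarMatrix κ κ A), 0 ≤ y →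
      ω.dim (Θ κ κ y) ≤ c * σ.dim y := by
    intro κ _ _ y hy
    let φ : CStarMatrix κ κ A →⋆ₙₐ[ℝ] CStarMatrix (κ × Fin m) (κ × Fin m) B :=
      { toFun := Θ κ κ
        map_smul' := fun r x => hsmul κ κ r x
        map_zero' := by
          have := hadd κ κ 0 0
          rw [add_zero] at this
          exact left_eq_add.mp this
        map_add' := fun x z => hadd κ κ x z
        map_mul' := fun x z => hmul κ κ κ x z
        map_star' := fun x => hstar κ κ x }
    refine ciSup_le fun n => ?_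
    have h5 : Θ κ κ (cfc (fun t : ℝ => min 1 ((n : ℝ) * t)) y) =
        cfc (fun t : ℝ => min 1 ((n : ℝ) * t)) (Θ κ κ y) :=
      sb2_hom_cfc φ (fun t : ℝ => min 1 ((n : ℝ) * t)) (by fun_prop) (by simp) hy
    rw [← h5]
    have h6 : ω.τ (κ × Fin m) (Θ κ κ (cfc (fun t : ℝ => min 1 ((n : ℝ) * t)) y)) =
        c * σ.τ κ (cfc (fun t : ℝ => min 1 ((n : ℝ) * t)) y) := by
      show _ = c * (ω.τ (κ × Fin m) (Θ κ κ (cfc (fun t : ℝ => min 1 ((n : ℝ) * t)) y)) / c)
      rw [mul_div_cancel₀ _ hc0.ne']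
    rw [h6]
    refine mul_le_mul_of_nonneg_left ?_ hc0.le
    exact le_ciSup (h3 A σ κ y hy).1 n
  refine ⟨σ, fun κ _ _ x hx => ?_⟩
  have hx' : 0 ≤ mp j x := (hm A B j hj.1 κ κ x x).1.1 hx
  refine ⟨hx', ?_⟩
  have h5 : Cu x (Θ κ κ (mp j x)) := by
    intro ε hε
    refine ⟨w κ, ?_⟩
    rw [hw κ x, sub_self, norm_zero]
    exact hε
  have h6 := h2 B ω κ (κ × Fin m) x (Θ κ κ (mp j x)) hx (hΘ0 κ _ hx') h5
  have h7 := hdim κ (mp j x) hx'
  have h8 := (h3 A σ κ (mp j x) hx').2.1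
  exact h6.trans (h7.trans (mul_le_mul_of_nonneg_right hcm h8))

end RC
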